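import Pool.Agent.helper43.LatSys.Basic
import Pool.Agent.helper36.LT.LatDefs

/-!
Lattices in `k((X))^3` form a `LatSys`. (for helper36, MP_490288_al, LT-T3C)
-/

set_option autoImplicit false

namespace Pool.Agent.helper43.LatSys

open Matrix Pool.Agent.helper36.LT

variable {k : Type} [Field k]

/-- the uniformiser. -/
noncomputable abbrev xx (k : Type) [Field k] : LaurentSeries k := HahnSeries.single (1 : ℤ) (1 : k)

lemma xx_eq : algebraMap (PowerSeries k) (LaurentSeries k) PowerSeries.X = xx k := by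
  rw [LaurentSeries.coe_algebraMap, HahnSeries.ofPowerSeries_X]

lemma order_xx : (xx k).order = 1 := HahnSeries.order_single one_ne_zero

lemma xx_ne : xx k ≠ 0 := by
  intro h
  have := order_xx (k := k)
  rw [h] at this
  simp at this

lemma det_updateRow_one (i : Fin 3) (φ : Fin 3 → PowerSeries k) :
    ((1 : MO k).updateRow i φ).det = φ i := by
  rw [← cramer_transpose_apply, transpose_one, cramer_one]
  rfl

lemma exists_factor (C : MO k) (h : ¬ IsUnit C.det) :
    ∃ H C' : MO k, C = H * C' ∧ (up H).det ≠ 0 ∧ (up H).det.order = 1 := by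
  have h0 : (C.map (PowerSeries.constantCoeff (R := k))).det = 0 := by
    have : (C.map (PowerSeries.constantCoeff (R := k))).det = PowerSeries.constantCoeff C.det := by
      rw [← RingHom.mapMatrix_apply, ← RingHom.map_det]
    rw [this]
    rw [PowerSeries.isUnit_iff_constantCoeff, isUnit_iff_ne_zero, not_not] at h
    exact h
  obtain ⟨φ, hφ, hφC⟩ := Matrix.exists_vecMul_eq_zero_iff.2 h0
  obtain ⟨i, hi⟩ : ∃ i, φ i ≠ 0 := by
    by_contra hcon
    push Not at hcon
    exact hφ (funext hcon)
  set P : MO k := (1 : MO k).updateRow i (fun j => PowerSeries.C (φ j)) with hP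
  have hdetP : P.det = PowerSeries.C (φ i) := det_updateRow_one i _
  have hPu : IsUnit P.det := by
    rw [hdetP, PowerSeries.isUnit_iff_constantCoeff]
    simpa using hi
  have hdvd : ∀ l, ∃ q, (P * C) i l = PowerSeries.X * q := by
    intro l
    have : PowerSeries.X ∣ (P * C) i l := by
      rw [PowerSeries.X_dvd_iff, Matrix.mul_apply, map_sum]
      have h1 := congrFun hφC l
      simp only [vecMul, dotProduct, map_apply, Pi.zero_apply] at h1
      rw [← h1]
      refine Finset.sum_congr rfl fun j _ => ?_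
      rw [map_mul, hP, updateRow_self]
      simp
    exact this
  choose q hq using hdvd
  have hfac : P * C = Matrix.diagonal (Function.update (1 : Fin 3 → PowerSeries k) i
      PowerSeries.X) * (P * C).updateRow i q := by
    ext1 a b
    rw [Matrix.diagonal_mul]
    by_cases ha : a = i
    · subst ha
      rw [Function.update_self, updateRow_self, hq]
    · rw [Function.update_of_ne ha, updateRow_ne ha]
      simp
  refine ⟨P⁻¹ * Matrix.diagonal (Function.update (1 : Fin 3 → PowerSeries k) i PowerSeries.X),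
    (P * C).updateRow i q, ?_, ?_⟩
  · rw [mul_assoc, ← hfac, ← mul_assoc, nonsing_inv_mul P hPu, one_mul]
  · have hD : (Matrix.diagonal (Function.update (1 : Fin 3 → PowerSeries k) i
        PowerSeries.X)).det = PowerSeries.X := by
      rw [det_diagonal, Finset.prod_update_of_mem (Finset.mem_univ i)]
      simp
    have hPinv : IsUnit (P⁻¹).det := by
      rw [det_nonsing_inv]
      exact IsUnit.ringInverse hPu
    have hne : algebraMap (PowerSeries k) (LaurentSeries k) (P⁻¹).det ≠ 0 := by
      rw [Ne, FaithfulSMul.algebraMap_eq_zero_iff]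
      exact hPinv.ne_zero
    rw [det_up, det_mul, hD, map_mul, xx_eq]
    refine ⟨mul_ne_zero hne xx_ne, ?_⟩
    rw [HahnSeries.order_mul hne xx_ne, order_unit _ hPinv, order_xx, zero_add]

lemma exists_clear (A : ME k) : ∃ n : ℕ, ∃ C : MO k, (xx k ^ n) • A = up C := by
  obtain ⟨⟨_, n, rfl⟩, hb⟩ := IsLocalization.exist_integer_multiples_of_finite
    (Submonoid.powers (PowerSeries.X : PowerSeries k))
    (fun p : Fin 3 × Fin 3 => (A p.1 p.2 : LaurentSeries k))
  choose c hc using hb
  refine ⟨n, Matrix.of fun i j => c (i, j), ?_⟩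
  ext1 i j
  have := hc (i, j)
  simp only [Algebra.smul_def, map_pow, xx_eq] at this
  rw [Matrix.smul_apply, up_apply, of_apply, smul_eq_mul]
  exact this.symm

/-- the action of a matrix. -/
noncomputable def gl (g : ME k) : (Fin 3 → LaurentSeries k) →ₗ[PowerSeries k]
    (Fin 3 → LaurentSeries k) := (Matrix.mulVecLin g).restrictScalars (PowerSeries k)

lemma map_lat (g A : ME k) : (lat A).map (gl g) = lat (g * A) := by
  unfold lat
  rw [Submodule.map_span, ← Set.range_comp]
  congr 2

/-- the type of lattices. -/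
def VL (k : Type) [Field k] : Type :=
  {L : Submodule (PowerSeries k) (Fin 3 → LaurentSeries k) // IsLat L}

noncomputable instance : SemilatticeSup (VL k) :=
  Subtype.semilatticeSup (by intro x y h h'; exact isLat_sup h h')

/-- the lattice with generator matrix `A`. -/
noncomputable def mk (A : ME k) (hA : A.det ≠ 0) : VL k := ⟨lat A, A, hA, rfl⟩

lemma exists_mk (a : VL k) : ∃ (A : ME k) (hA : A.det ≠ 0), a = mk A hA := by
  obtain ⟨L, A, hA, rfl⟩ := a
  exact ⟨A, hA, rfl⟩

lemma mk_le_iff {A B : ME k} (hA : A.det ≠ 0) (hB : B.det ≠ 0) :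
    mk B hB ≤ mk A hA ↔ ∃ C : MO k, B = A * up C := lat_le_iff A B

lemma det_gl_ne (g : GL (Fin 3) (LaurentSeries k)) : (g : ME k).det ≠ 0 := by
  have := (Matrix.isUnit_iff_isUnit_det _).1 g.isUnit
  exact this.ne_zero

noncomputable instance : MulAction (GL (Fin 3) (LaurentSeries k)) (VL k) where
  smul g a := ⟨a.1.map (gl (g : ME k)), by
    obtain ⟨L, A, hA, rfl⟩ := a
    refine ⟨(g : ME k) * A, ?_, map_lat _ _⟩
    rw [det_mul]
    exact mul_ne_zero (det_gl_ne g) hA⟩
  one_smul a := by
    obtain ⟨A, hA, rfl⟩ := exists_mk a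
    apply Subtype.ext
    show (lat A).map (gl ((1 : GL (Fin 3) (LaurentSeries k)) : ME k)) = lat A
    rw [map_lat]
    simp
  mul_smul g h a := by
    obtain ⟨A, hA, rfl⟩ := exists_mk a
    apply Subtype.ext
    show (lat A).map (gl ((g * h : GL (Fin 3) (LaurentSeries k)) : ME k)) =
      ((lat A).map (gl (h : ME k))).map (gl (g : ME k))
    rw [map_lat, map_lat, map_lat]
    simp [mul_assoc]

lemma smul_mk (g : GL (Fin 3) (LaurentSeries k)) {A : ME k} (hA : A.det ≠ 0) :
    g • mk A hA = mk ((g : ME k) * A) (by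
      rw [det_mul]; exact mul_ne_zero (det_gl_ne g) hA) :=
  Subtype.ext (map_lat _ _)

lemma smul_mono (g : GL (Fin 3) (LaurentSeries k)) {a b : VL k} (h : a ≤ b) : g • a ≤ g • b :=
  Submodule.map_mono h

/-- the index. -/
noncomputable def ind (a : VL k) : ℤ := (exists_mk a).choose.det.order

lemma ind_mk {A : ME k} (hA : A.det ≠ 0) : ind (mk A hA) = A.det.order := by
  obtain ⟨hB, e⟩ := (exists_mk (mk A hA)).choose_spec
  have : lat A = lat (exists_mk (mk A hA)).choose := congrArg Subtype.val e
  exact (order_det_eq hA hB this).symm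

lemma ind_smul (g : GL (Fin 3) (LaurentSeries k)) (a : VL k) :
    ind (g • a) = ind a + (g : ME k).det.order := by
  obtain ⟨A, hA, rfl⟩ := exists_mk a
  rw [smul_mk, ind_mk, ind_mk, order_det_mul (det_gl_ne g) hA]
  ring

lemma det_scalar_ne : (Matrix.scalar (Fin 3) (xx k)).det ≠ 0 := by
  simp [xx_ne]

/-- multiplication with the uniformiser. -/
noncomputable def xi (k : Type) [Field k] : GL (Fin 3) (LaurentSeries k) :=
  Matrix.GeneralLinearGroup.mkOfDetNeZero (Matrix.scalar (Fin 3) (xx k)) det_scalar_ne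

lemma xi_coe : ((xi k : GL (Fin 3) (LaurentSeries k)) : ME k) = Matrix.scalar (Fin 3) (xx k) := rfl

lemma xi_mul (A : ME k) : ((xi k : GL (Fin 3) (LaurentSeries k)) : ME k) * A = (xx k) • A := by
  rw [xi_coe, Matrix.scalar_apply, ← Matrix.smul_one_eq_diagonal]
  simp

lemma xi_pow_mul (n : ℕ) (A : ME k) :
    ((xi k ^ n : GL (Fin 3) (LaurentSeries k)) : ME k) * A = (xx k) ^ n • A := by
  induction n generalizing A with
  | zero => simp
  | succ n ih =>
    rw [pow_succ, Units.val_mul, mul_assoc, xi_mul, ih, smul_smul, pow_succ]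

lemma xi_comm (g : GL (Fin 3) (LaurentSeries k)) : g * xi k = xi k * g := by
  apply Units.ext
  rw [Units.val_mul, Units.val_mul, xi_mul, xi_coe, Matrix.scalar_apply,
    ← Matrix.smul_one_eq_diagonal]
  simp

lemma order_det_xi : ((xi k : GL (Fin 3) (LaurentSeries k)) : ME k).det.order = 3 := by
  have : ((xi k : GL (Fin 3) (LaurentSeries k)) : ME k).det = xx k * (xx k * xx k) := by
    rw [xi_coe]
    simp only [scalar_apply, det_diagonal, Finset.prod_const, Finset.card_univ, Fintype.card_fin]
    ring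
  rw [this, HahnSeries.order_mul xx_ne (mul_ne_zero xx_ne xx_ne),
    HahnSeries.order_mul xx_ne xx_ne, order_xx]
  norm_num

lemma iter_smul (g : GL (Fin 3) (LaurentSeries k)) (n : ℕ) (a : VL k) :
    (fun a => g • a)^[n] a = g ^ n • a := by
  induction n with
  | zero => simp
  | succ n ih => rw [Function.iterate_succ_apply', ih, smul_smul, pow_succ']

/-- the system of lattices. -/
noncomputable def sys (k : Type) [Field k] : LatSys (VL k) where
  sh a := xi k • a
  us a := (xi k)⁻¹ • a
  sh_us a := smul_inv_smul _ _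
  us_sh a := inv_smul_smul _ _
  sh_mono _ _ h := smul_mono _ h
  us_mono _ _ h := smul_mono _ h
  sh_le a := by
    obtain ⟨A, hA, rfl⟩ := exists_mk a
    rw [smul_mk, mk_le_iff]
    refine ⟨(PowerSeries.X : PowerSeries k) • (1 : MO k), ?_⟩
    rw [xi_mul]
    have : up ((PowerSeries.X : PowerSeries k) • (1 : MO k)) = (xx k) • (1 : ME k) := by
      ext1 i j
      rw [up_apply, Matrix.smul_apply, Matrix.smul_apply, smul_eq_mul, smul_eq_mul, map_mul,
        xx_eq]
      by_cases h : i = j
      · subst h; simp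
      · simp [Matrix.one_apply_ne h]
    rw [this]
    simp
  ind := ind
  ind_sh a := by rw [ind_smul, order_det_xi]
  ind_anti a b h := by
    obtain ⟨A, hA, rfl⟩ := exists_mk a
    obtain ⟨B, hB, rfl⟩ := exists_mk b
    rw [ind_mk, ind_mk]
    exact (lat_le hB hA h).1
  ind_eq a b h he := by
    obtain ⟨A, hA, rfl⟩ := exists_mk a
    obtain ⟨B, hB, rfl⟩ := exists_mk b
    rw [ind_mk, ind_mk] at he
    exact Subtype.ext ((lat_le hB hA h).2 he.symm).symm
  refine a b h hlt := by
    obtain ⟨A, hA, rfl⟩ := exists_mk a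
    obtain ⟨B, hB, rfl⟩ := exists_mk b
    rw [ind_mk, ind_mk] at hlt
    obtain ⟨C, hC⟩ := (mk_le_iff hB hA).1 h
    have hCdet : (up C).det ≠ 0 := by
      intro h0
      apply hA
      rw [hC, det_mul, h0, mul_zero]
    have hnu : ¬ IsUnit C.det := by
      intro hu
      have h1 := order_unit _ hu
      rw [← det_up] at h1
      rw [hC, order_det_mul hB hCdet, h1] at hlt
      omega
    obtain ⟨H, C', hHC, hH0, hH1⟩ := exists_factor C hnu
    have hBH : (B * up H).det ≠ 0 := by
      rw [det_mul]; exact mul_ne_zero hB hH0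
    refine ⟨mk (B * up H) hBH, ?_, ?_, ?_⟩
    · rw [mk_le_iff]
      refine ⟨C', ?_⟩
      rw [hC, hHC, up_mul, mul_assoc]
    · rw [mk_le_iff]
      exact ⟨H, rfl⟩
    · rw [ind_mk, ind_mk, order_det_mul hB hH0, hH1]
  base := mk 1 (by simp)
  ind_base := by
    rw [ind_mk]; simp
  cof a := by
    obtain ⟨A, hA, rfl⟩ := exists_mk a
    obtain ⟨n, C, hC⟩ := exists_clear A
    obtain ⟨m, D, hD⟩ := exists_clear A⁻¹
    have hAu : IsUnit A.det := isUnit_iff_ne_zero.2 hA
    have key : ∀ (A : ME k) (n : ℕ) (C : MO k), (xx k ^ n) • A = up C → ∀ l : ℕ, n ≤ l →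
        ∃ C' : MO k, (xx k ^ l) • A = up C' := by
      intro A n C h l hl
      refine ⟨(PowerSeries.X ^ (l - n) : PowerSeries k) • C, ?_⟩
      ext1 i j
      have h1 := congrFun (congrFun h i) j
      rw [Matrix.smul_apply, up_apply, smul_eq_mul] at h1
      rw [Matrix.smul_apply, up_apply, Matrix.smul_apply, smul_eq_mul, smul_eq_mul, map_mul,
        map_pow, xx_eq, ← h1, ← mul_assoc, ← pow_add]
      congr 2
      omega
    obtain ⟨C', hC'⟩ := key A n C hC (max n m) (le_max_left _ _)
    obtain ⟨D', hD'⟩ := key A⁻¹ m D hD (max n m) (le_max_right _ _)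
    refine ⟨max n m, ?_, ?_⟩
    · rw [iter_smul, smul_mk, mk_le_iff]
      refine ⟨D', ?_⟩
      rw [← hD', xi_pow_mul, mul_smul_comm, mul_nonsing_inv A hAu]
    · have : mk A hA ≤ (xi k)⁻¹ ^ (max n m) • mk (1 : ME k) (by simp) := by
        have h2 : xi k ^ (max n m) • mk A hA ≤ mk (1 : ME k) (by simp) := by
          rw [smul_mk, mk_le_iff]
          refine ⟨C', ?_⟩
          rw [xi_pow_mul, hC', one_mul]
        have h3 := smul_mono ((xi k)⁻¹ ^ (max n m)) h2
        rw [smul_smul, inv_pow, inv_mul_cancel, one_smul] at h3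
        rw [inv_pow]
        exact h3
      rw [iter_smul]
      exact this

theorem exists_latSys (k : Type) [Field k] : ∃ (V : Type) (_ : SemilatticeSup V) (D : LatSys V)
    (_ : MulAction (GL (Fin 3) (LaurentSeries k)) V),
    (∀ (g : GL (Fin 3) (LaurentSeries k)) (a b : V), a ≤ b → g • a ≤ g • b) ∧
    (∀ (g : GL (Fin 3) (LaurentSeries k)) (a : V), g • D.sh a = D.sh (g • a)) ∧
    (∀ (g : GL (Fin 3) (LaurentSeries k)) (a : V), D.ind (g • a) =
      D.ind a + (g : Matrix (Fin 3) (Fin 3) (LaurentSeries k)).det.order) ∧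
    ∀ a : V, ∃ n : ℕ, ∀ g : GL (Fin 3) (LaurentSeries k), g • a = a →
      ∀ i j, (g : Matrix (Fin 3) (Fin 3) (LaurentSeries k)) i j = 0 ∨
        -(n : ℤ) ≤ ((g : Matrix (Fin 3) (Fin 3) (LaurentSeries k)) i j).order := by
  refine ⟨VL k, inferInstance, sys k, inferInstance, fun g a b h => smul_mono g h, ?_,
    fun g a => ind_smul g a, ?_⟩
  · intro g a
    show g • xi k • a = xi k • g • a
    rw [smul_smul, smul_smul, xi_comm]
  · intro a
    obtain ⟨A, hA, rfl⟩ := exists_mk a
    obtain ⟨n, C, hC⟩ := exists_clear A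
    obtain ⟨m, D, hD⟩ := exists_clear A⁻¹
    have hAu : IsUnit A.det := isUnit_iff_ne_zero.2 hA
    refine ⟨n + m, fun g hg i j => ?_⟩
    rw [smul_mk] at hg
    obtain ⟨G, hG⟩ := (mk_le_iff hA _).1 hg.le
    have h1 : (xx k ^ (n + m)) • (g : ME k) = up (C * G * D) := by
      rw [up_mul, up_mul, ← hC, ← hD]
      have : (g : ME k) = A * up G * A⁻¹ := by
        rw [← hG, mul_assoc, mul_nonsing_inv A hAu, mul_one]
      rw [this, pow_add, mul_smul]
      simp only [smul_mul_assoc, mul_smul_comm, smul_smul, mul_comm]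
    have h2 := congrFun (congrFun h1 i) j
    rw [Matrix.smul_apply, up_apply, smul_eq_mul] at h2
    by_cases h0 : (g : ME k) i j = 0
    · exact Or.inl h0
    · right
      have h3 := order_coe_nonneg ((C * G * D) i j)
      rw [← h2, HahnSeries.order_mul (pow_ne_zero _ xx_ne) h0] at h3
      have h4 : (xx k ^ (n + m)).order = (n + m : ℕ) := by
        rw [HahnSeries.order_pow, order_xx]
        simp
      rw [h4] at h3
      push_cast at h3 ⊢
      omega

end Pool.Agent.helper43.LatSys
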