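import Mathlib

/-!
Lattices in `k((X))^3`, the generator matrices. (for helper36, MP_490288_al, LT-T3C)
-/

set_option autoImplicit false

namespace Pool.Agent.helper43.LatSys

open Matrix

variable {k : Type} [Field k]

/-- matrices over the Laurent series. -/
abbrev ME (k : Type) [Field k] := Matrix (Fin 3) (Fin 3) (LaurentSeries k)

/-- matrices over the power series. -/
abbrev MO (k : Type) [Field k] := Matrix (Fin 3) (Fin 3) (PowerSeries k)

/-- the inclusion on matrices. -/
noncomputable abbrev up (C : MO k) : ME k := C.map (algebraMap (PowerSeries k) (LaurentSeries k))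

/-- the lattice spanned by the columns of `A`. -/
noncomputable def lat (A : ME k) : Submodule (PowerSeries k) (Fin 3 → LaurentSeries k) :=
  Submodule.span (PowerSeries k) (Set.range A.col)

lemma mem_lat (A : ME k) (x : Fin 3 → LaurentSeries k) :
    x ∈ lat A ↔ ∃ c : Fin 3 → PowerSeries k,
      x = A *ᵥ (fun i => algebraMap (PowerSeries k) (LaurentSeries k) (c i)) := by
  unfold lat
  rw [Submodule.mem_span_range_iff_exists_fun]
  constructor
  · rintro ⟨c, rfl⟩
    refine ⟨c, ?_⟩
    funext i
    rw [Finset.sum_apply]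
    simp only [mulVec, dotProduct]
    refine Finset.sum_congr rfl fun j _ => ?_
    rw [Pi.smul_apply, Algebra.smul_def, mul_comm, col_apply]
  · rintro ⟨c, rfl⟩
    refine ⟨c, ?_⟩
    funext i
    rw [Finset.sum_apply]
    simp only [mulVec, dotProduct]
    refine Finset.sum_congr rfl fun j _ => ?_
    rw [Pi.smul_apply, Algebra.smul_def, mul_comm, col_apply]

lemma lat_le_iff (A B : ME k) : lat B ≤ lat A ↔ ∃ C : MO k, B = A * up C := by
  constructor
  · intro h
    have : ∀ j, ∃ c : Fin 3 → PowerSeries k,
        B.col j = A *ᵥ (fun i => algebraMap (PowerSeries k) (LaurentSeries k) (c i)) := by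
      intro j
      rw [← mem_lat]
      exact h (Submodule.subset_span ⟨j, rfl⟩)
    choose c hc using this
    refine ⟨Matrix.of (fun i j => c j i), ?_⟩
    ext i j
    have := congrFun (hc j) i
    simp only [col_apply] at this
    rw [this]
    simp [Matrix.mul_apply, mulVec, dotProduct]
  · rintro ⟨C, rfl⟩
    unfold lat
    rw [Submodule.span_le]
    rintro _ ⟨j, rfl⟩
    show _ ∈ lat A
    rw [mem_lat]
    refine ⟨fun i => C i j, ?_⟩
    ext i
    simp [Matrix.mul_apply, mulVec, dotProduct]


lemma up_apply (C : MO k) (i j : Fin 3) :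
    up C i j = algebraMap (PowerSeries k) (LaurentSeries k) (C i j) := rfl

lemma up_mul (C D : MO k) : up (C * D) = up C * up D := Matrix.map_mul

lemma up_one : up (1 : MO k) = 1 := by
  simp [up]

lemma up_injective : Function.Injective (up : MO k → ME k) := by
  intro C D h
  ext1 i j
  have := congrFun (congrFun h i) j
  simp only [up, map_apply] at this
  exact IsFractionRing.injective (PowerSeries k) (LaurentSeries k) this

lemma det_up (C : MO k) : (up C).det = algebraMap (PowerSeries k) (LaurentSeries k) C.det := by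
  unfold up
  rw [← RingHom.mapMatrix_apply, ← RingHom.map_det]

/-- `f` is integral iff it is zero or has nonnegative order. -/
lemma order_coe_nonneg (f : PowerSeries k) :
    0 ≤ (algebraMap (PowerSeries k) (LaurentSeries k) f).order := by
  by_cases h : f = 0
  · subst h; simp
  · have hf : (algebraMap (PowerSeries k) (LaurentSeries k) f) ≠ 0 := by
      rw [Ne, FaithfulSMul.algebraMap_eq_zero_iff]
      exact h
    by_contra hcon
    push Not at hcon
    apply hf
    rw [← HahnSeries.coeff_order_eq_zero]
    rw [LaurentSeries.coe_algebraMap] at hcon ⊢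
    rw [PowerSeries.coeff_coe, if_pos hcon]

lemma exists_of_order_nonneg (f : LaurentSeries k) (h : 0 ≤ f.order) :
    ∃ g : PowerSeries k, f = algebraMap (PowerSeries k) (LaurentSeries k) g := by
  refine ⟨PowerSeries.X ^ f.order.natAbs * f.powerSeriesPart, ?_⟩
  rw [map_mul, LaurentSeries.coe_algebraMap, HahnSeries.ofPowerSeries_X_pow,
    Int.natAbs_of_nonneg h, LaurentSeries.single_order_mul_powerSeriesPart]

lemma order_unit (f : PowerSeries k) (h : IsUnit f) :
    (algebraMap (PowerSeries k) (LaurentSeries k) f).order = 0 := by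
  obtain ⟨u, rfl⟩ := h
  have h1 := order_coe_nonneg (k := k) (u : PowerSeries k)
  have h2 := order_coe_nonneg (k := k) ((u⁻¹ : (PowerSeries k)ˣ) : PowerSeries k)
  have h3 : (algebraMap (PowerSeries k) (LaurentSeries k) u) *
      (algebraMap (PowerSeries k) (LaurentSeries k) ((u⁻¹ : (PowerSeries k)ˣ) : PowerSeries k))
        = 1 := by
    rw [← map_mul]; simp
  have h4 := congrArg HahnSeries.order h3
  rw [HahnSeries.order_mul (left_ne_zero_of_mul_eq_one h3) (right_ne_zero_of_mul_eq_one h3),
    HahnSeries.order_one] at h4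
  omega

lemma isUnit_of_order (f : PowerSeries k) (h0 : f ≠ 0)
    (h : (algebraMap (PowerSeries k) (LaurentSeries k) f).order = 0) : IsUnit f := by
  rw [PowerSeries.isUnit_iff_constantCoeff, isUnit_iff_ne_zero]
  intro h1
  have hf : (algebraMap (PowerSeries k) (LaurentSeries k) f) ≠ 0 := by
    rw [Ne, FaithfulSMul.algebraMap_eq_zero_iff]
    exact h0
  apply hf
  rw [← HahnSeries.coeff_order_eq_zero, h, LaurentSeries.coe_algebraMap, PowerSeries.coeff_coe]
  simpa using h1


/-- lattices. -/
def IsLat (L : Submodule (PowerSeries k) (Fin 3 → LaurentSeries k)) : Prop :=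
  ∃ A : ME k, A.det ≠ 0 ∧ L = lat A

lemma isLattice_of_isLat {L : Submodule (PowerSeries k) (Fin 3 → LaurentSeries k)} (h : IsLat L) :
    Submodule.IsLattice (LaurentSeries k) L := by
  obtain ⟨A, hA, rfl⟩ := h
  refine ⟨Submodule.fg_span (Set.finite_range _), ?_⟩
  unfold lat
  rw [Submodule.span_span_of_tower]
  have hli : LinearIndependent (LaurentSeries k) A.col := by
    rw [linearIndependent_cols_iff_isUnit, isUnit_iff_isUnit_det]
    exact isUnit_iff_ne_zero.2 hA
  exact hli.span_eq_top_of_card_eq_finrank' (by simp)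

lemma isLat_of_isLattice {L : Submodule (PowerSeries k) (Fin 3 → LaurentSeries k)}
    (h : Submodule.IsLattice (LaurentSeries k) L) : IsLat L := by
  have hfr : Module.finrank (PowerSeries k) L = 3 := by
    simpa using Submodule.IsLattice.finrank_of_pi (K := LaurentSeries k) L
  have : Module.Free (PowerSeries k) L := Submodule.IsLattice.free (K := LaurentSeries k) L
  let b : Module.Basis (Fin 3) (PowerSeries k) L := Module.finBasisOfFinrankEq _ _ hfr
  refine ⟨Matrix.of (fun i j => (b j : Fin 3 → LaurentSeries k) i), ?_, ?_⟩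
  · have hli := (b.extendOfIsLattice (LaurentSeries k)).linearIndependent
    have e : (Matrix.of (fun i j => (b j : Fin 3 → LaurentSeries k) i)).col =
        (b.extendOfIsLattice (LaurentSeries k) : Fin 3 → Fin 3 → LaurentSeries k) := by
      funext j
      rw [Module.Basis.extendOfIsLattice_apply]
      rfl
    rw [← e, linearIndependent_cols_iff_isUnit, isUnit_iff_isUnit_det] at hli
    exact hli.ne_zero
  · unfold lat
    have e : (Matrix.of (fun i j => (b j : Fin 3 → LaurentSeries k) i)).col =
        L.subtype ∘ b := by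
      funext j
      rfl
    rw [e, Set.range_comp, ← Submodule.map_span, b.span_eq, Submodule.map_top,
      Submodule.range_subtype]

lemma isLat_sup {L L' : Submodule (PowerSeries k) (Fin 3 → LaurentSeries k)} (h : IsLat L)
    (h' : IsLat L') : IsLat (L ⊔ L') := by
  have := isLattice_of_isLat h
  have := isLattice_of_isLat h'
  exact isLat_of_isLattice inferInstance

/-- the index. -/
lemma order_det_mul {A B : ME k} (hA : A.det ≠ 0) (hB : B.det ≠ 0) :
    (A * B).det.order = A.det.order + B.det.order := by
  rw [det_mul, HahnSeries.order_mul hA hB]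

lemma lat_le {A B : ME k} (hA : A.det ≠ 0) (hB : B.det ≠ 0) (h : lat B ≤ lat A) :
    A.det.order ≤ B.det.order ∧ (A.det.order = B.det.order → lat A = lat B) := by
  obtain ⟨C, rfl⟩ := (lat_le_iff A B).1 h
  have hC : (up C).det ≠ 0 := by
    intro h0
    apply hB
    rw [det_mul, h0, mul_zero]
  have h1 := order_det_mul hA hC
  have h2 : 0 ≤ (up C).det.order := by
    rw [det_up]; exact order_coe_nonneg _
  refine ⟨by omega, ?_⟩
  intro he
  have h3 : (up C).det.order = 0 := by omega
  rw [det_up] at h3 hC
  have h4 : IsUnit C.det := isUnit_of_order _ (by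
    intro h0; rw [h0, map_zero] at hC; exact hC rfl) h3
  apply le_antisymm _ h
  rw [lat_le_iff]
  refine ⟨C⁻¹, ?_⟩
  rw [mul_assoc, ← up_mul, mul_nonsing_inv C h4, up_one, mul_one]

lemma order_det_eq {A B : ME k} (hA : A.det ≠ 0) (hB : B.det ≠ 0) (h : lat A = lat B) :
    A.det.order = B.det.order :=
  le_antisymm (lat_le hA hB h.ge).1 (lat_le hB hA h.le).1

end Pool.Agent.helper43.LatSys
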